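import Pool.Agent.Helper72.BH.Stab

/-!
# Auxiliary facts for the answer in the game (project HL)
-/

set_option autoImplicit false

namespace Pool.Agent.Helper32.HL

open FreeGroup (of)
open Pool.Agent.Helper72.BH
open Pool.Agent.Helper22.OR (Gen)
open Function (Injective)

variable {G G' : Type} [Group G] [Group G']

/-- The subgroup generated by a tuple. -/
abbrev tup {G : Type} [Group G] {i : ℕ} (x : Fin i → G) : Subgroup G :=
  Subgroup.closure (Set.range x)

theorem tup_map {i : ℕ} (φ : G →* G') (s : Fin i → G) : (tup s).map φ = tup (φ ∘ s) := by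
  rw [MonoidHom.map_closure, ← Set.range_comp]

theorem range_lift {i : ℕ} (x : Fin i → G) : (FreeGroup.lift x).range = tup x :=
  FreeGroup.range_lift_eq_closure

omit [Group G] in
theorem range_append {p q : ℕ} (a : Fin p → G) (b : Fin q → G) :
    Set.range (Fin.append a b) = Set.range a ∪ Set.range b := by
  ext g
  constructor
  · rintro ⟨i, rfl⟩
    refine Fin.addCases (fun i => ?_) (fun i => ?_) i
    · rw [Fin.append_left]
      exact Or.inl ⟨i, rfl⟩
    · rw [Fin.append_right]
      exact Or.inr ⟨i, rfl⟩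
  · rintro (⟨i, rfl⟩ | ⟨i, rfl⟩)
    · exact ⟨Fin.castAdd q i, Fin.append_left a b i⟩
    · exact ⟨Fin.natAdd p i, Fin.append_right a b i⟩

theorem tup_append {p q : ℕ} (a : Fin p → G) (b : Fin q → G) :
    tup (Fin.append a b) = tup a ⊔ tup b := by
  unfold tup
  rw [range_append, Subgroup.closure_union]

theorem lift_comp {i : ℕ} (φ : G →* G') (s : Fin i → G) :
    FreeGroup.lift (φ ∘ s) = φ.comp (FreeGroup.lift s) := by
  ext j
  simp

theorem lift_comp_inj {i : ℕ} {φ : G →* G'} (hφ : Injective φ) (s : Fin i → G) :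
    Injective (FreeGroup.lift (φ ∘ s)) ↔ Injective (FreeGroup.lift s) := by
  rw [lift_comp, MonoidHom.coe_comp, hφ.of_comp_iff]

theorem gen_map_iff {k : ℕ} {φ : G →* G'} (hφ : Injective φ) (A : Subgroup G) :
    Gen k (A.map φ) ↔ Gen k A := by
  constructor
  · rintro ⟨g, hg⟩
    have h1 : ∀ i, ∃ a : G, φ a = g i := by
      intro i
      have h2 : g i ∈ A.map φ := hg ▸ Subgroup.subset_closure ⟨i, rfl⟩
      obtain ⟨a, -, ha⟩ := h2
      exact ⟨a, ha⟩
    choose a ha using h1
    refine ⟨a, Subgroup.map_injective hφ ?_⟩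
    rw [← hg]
    have h3 : φ ∘ a = g := funext ha
    have h4 := tup_map φ a
    rw [h3] at h4
    exact h4
  · rintro ⟨g, hg⟩
    exact ⟨φ ∘ g, by rw [← hg]; exact (tup_map φ g).symm⟩

theorem filled_map_iff {k : ℕ} {φ : G →* G'} (hφ : Injective φ) (H A : Subgroup G) :
    Filled k (H.map φ) (A.map φ) ↔ Filled k H A := by
  constructor
  · rintro ⟨h1, h2, h3⟩
    refine ⟨(Subgroup.map_le_map_iff_of_injective hφ).1 h1, (gen_map_iff hφ A).1 h2, ?_⟩
    intro j K u hj hK hKu hHK
    refine h3 j (K.map φ) (φ u) hj ((gen_map_iff hφ K).2 hK) ?_ (Subgroup.map_mono hHK)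
    rw [← hKu, Subgroup.map_sup, MonoidHom.map_closure, Set.image_singleton]
  · intro h
    exact filled_map φ (fun x _ hx => (injective_iff_map_eq_one φ).1 hφ x hx) h

theorem filledLe_map_iff {k : ℕ} {φ : G →* G'} (hφ : Injective φ) (H A : Subgroup G) :
    FilledLe k (H.map φ) (A.map φ) ↔ FilledLe k H A := by
  unfold FilledLe
  simp only [filled_map_iff hφ]

theorem filled_sub {k r : ℕ} {e : Fin r → G} (he : Injective (FreeGroup.lift e))
    {H A : Subgroup G} (h : Filled k H A) (hA : A ≤ tup e) {X : Set G} (hX : X ⊆ Set.range e)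
    (hS : H ≤ Subgroup.closure X) : A ≤ Subgroup.closure X := by
  have h1 : (fun i => FreeGroup.lift e (of i)) '' (e ⁻¹' X) = X := by
    simp only [FreeGroup.lift_apply_of]
    exact Set.image_preimage_eq_of_subset hX
  have h2 := filled_basis (FreeGroup.lift e) he h (by rw [range_lift]; exact hA) (e ⁻¹' X)
    (by rw [h1]; exact hS)
  rw [h1] at h2
  exact h2

/-- The free group on a free family, as an isomorphism onto the subgroup it generates. -/
noncomputable def tupEquiv {r : ℕ} {e : Fin r → G} (he : Injective (FreeGroup.lift e)) :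
    FreeGroup (Fin r) ≃* tup e :=
  (MonoidHom.ofInjective he).trans (MulEquiv.subgroupCongr (range_lift e))

theorem rank_le {r k : ℕ} {e : Fin r → G} (he : Injective (FreeGroup.lift e))
    (h : Gen k (tup e)) : r ≤ k := by
  obtain ⟨g, hg⟩ := h
  have h1 : ∀ i, g i ∈ tup e := fun i => hg ▸ Subgroup.subset_closure ⟨i, rfl⟩
  let g' : Fin k → tup e := fun i => ⟨g i, h1 i⟩
  have h2 : Subgroup.closure (Set.range g') = ⊤ := by
    apply Subgroup.map_injective (tup e).subtype_injective
    have h3 := tup_map (tup e).subtype g'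
    have h4 : (tup e).subtype ∘ g' = g := rfl
    rw [h4] at h3
    rw [h3, ← MonoidHom.range_eq_map, Subgroup.range_subtype]
    exact hg
  have h5 := (Pool.Agent.Helper22.OR.card_le_of_gen (tupEquiv he) g' h2).2
  simpa using h5

end Pool.Agent.Helper32.HL
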