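import Pool.Agent.Helper32.HL.RespA

/-!
# The hull of the answer lies in the image (project HL)
-/

set_option autoImplicit false

namespace Pool.Agent.Helper32.HL

open FreeGroup (of lift)
open Pool.Agent.Helper72.BH
open Pool.Agent.Helper22.OR (Gen)
open Function (Injective)

variable {G G' : Type} [Group G] [Group G']

/-- Part (3) of the plan in `Resp`. -/
theorem crux {N N' m p q i i' T : ℕ} {φ : FreeGroup (Fin m) →* G} {ψ : FreeGroup (Fin m) →* G'}
    (hφ : Injective φ) (hψ : Injective ψ) {s : Fin i → FreeGroup (Fin m)}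
    (hψr : ψ.range = hull N (tup (ψ ∘ s)))
    {α : Fin p → FreeGroup (Fin m)} {b : Fin q → G} {y : Fin q → G'}
    (hT : N' + (p + q) ≤ T) (hTN : T ≤ N) (hα : Filled p (tup s) (tup α))
    (hst : ∀ C : Subgroup G, FilledLe T (tup (φ ∘ s)) C → tup (φ ∘ α) ≤ C →
      ∀ (c : ℕ) (γ : Fin c → G), Injective (lift γ) → tup γ = C →
        Injective (lift (Fin.append γ b)))
    (hgen : ∀ J : Subgroup G', Gen T J → tup (ψ ∘ s) ≤ J → (∀ i, y i ∈ J) →
      ∃ (c : ℕ) (a : Fin c → G'), Injective (lift (Fin.append a y)) ∧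
        tup a ⊔ tup y = J ∧ tup (ψ ∘ s) ≤ tup a)
    {S : Fin i' → FreeGroup (Fin (p + q))}
    (hhull : hull N' (tup (lift (Fin.append (φ ∘ α) b) ∘ S)) ≤
      (lift (Fin.append (φ ∘ α) b)).range)
    {A : Subgroup G'} (hA : FilledLe N' (tup (lift (Fin.append (ψ ∘ α) y) ∘ S)) A) :
    A ≤ (lift (Fin.append (ψ ∘ α) y)).range := by
  have hα' : Filled p (tup (ψ ∘ s)) (tup (ψ ∘ α)) := by
    rw [← tup_map, ← tup_map]
    exact (filled_map_iff hψ _ _).2 hα
  obtain ⟨k, hk, hA⟩ := hA
  -- the join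
  have hJ : Gen T (A ⊔ (tup (ψ ∘ α) ⊔ tup y)) :=
    (gen_sup (hA.gen.mono hk) (gen_sup ⟨_, rfl⟩ ⟨_, rfl⟩)).mono hT
  obtain ⟨c', a', hinj', hJ', hsa'⟩ := hgen _ hJ
    (hα'.le.trans (le_sup_left.trans le_sup_right))
    (fun t => (le_sup_right.trans le_sup_right : tup y ≤ _) (Subgroup.subset_closure ⟨t, rfl⟩))
  have ha' : Injective (lift a') := by
    have h1 : lift a' = (lift (Fin.append a' y)).comp (FreeGroup.map (Fin.castAdd q)) := by
      ext t
      simp
    rw [h1]
    exact hinj'.comp (FreeGroup.map_injective (Fin.castAdd_injective c' q))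
  obtain ⟨c0, c1, c, d, hc01, hcd, hcdinj, hcfill⟩ := exists_factor (tupEquiv ha') hsa'
  -- the basis in three blocks
  have hcda : tup (Fin.append c d) = tup a' := by rw [tup_append]; exact hcd
  have he : Injective (lift (Fin.append (Fin.append c d) y)) := by
    refine free_append hinj' hcdinj fun t => ?_
    change _ ∈ tup a'
    rw [← hcda]
    exact Subgroup.subset_closure ⟨t, rfl⟩
  have heJ : tup (Fin.append (Fin.append c d) y) = A ⊔ (tup (ψ ∘ α) ⊔ tup y) := by
    rw [tup_append, hcda, hJ']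
  have hcinj : Injective (lift c) := by
    have h1 : lift c = (lift (Fin.append c d)).comp (FreeGroup.map (Fin.castAdd c1)) := by
      ext t
      simp
    rw [h1]
    exact hcdinj.comp (FreeGroup.map_injective (Fin.castAdd_injective c0 c1))
  have hcy : Injective (lift (Fin.append c y)) := by
    refine free_append hinj' hcinj fun t => ?_
    change _ ∈ tup a'
    rw [← hcd]
    exact Subgroup.mem_sup_left (Subgroup.subset_closure ⟨t, rfl⟩)
  have hαc : tup (ψ ∘ α) ≤ tup c := by
    refine filled_sub he hα' (heJ ▸ le_sup_left.trans le_sup_right) ?_ hcfill.le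
    rw [range_append, range_append]
    exact fun g hg => Or.inl (Or.inl hg)
  have hAc : A ≤ tup c ⊔ tup y := by
    have h1 : tup c ⊔ tup y = Subgroup.closure (Set.range c ∪ Set.range y) :=
      (Subgroup.closure_union _ _).symm
    rw [h1]
    refine filled_sub he hA (heJ ▸ le_sup_left) ?_ ?_
    · rw [range_append, range_append]
      rintro g (hg | hg)
      · exact Or.inl (Or.inl hg)
      · exact Or.inr hg
    · rw [← h1, Subgroup.closure_le]
      rintro _ ⟨t, rfl⟩
      have h2 : lift (Fin.append (ψ ∘ α) y) (S t) ∈ (lift (Fin.append (ψ ∘ α) y)).range := ⟨_, rfl⟩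
      rw [range_lift, tup_append] at h2
      exact sup_le_sup_right hαc _ h2
  -- the preimage of `c`
  have hc0T : c0 ≤ T := by
    have h1 : Gen T (tup (Fin.append (Fin.append c d) y)) := heJ ▸ hJ
    have h2 := rank_le he h1
    omega
  have hcψ : ∀ t, ∃ g, ψ g = c t := by
    intro t
    have h1 : tup c ≤ ψ.range := by
      rw [hψr]
      exact le_hull (hc0T.trans hTN) hcfill
    exact h1 (Subgroup.subset_closure ⟨t, rfl⟩)
  choose γ hγ using hcψ
  have hγ' : ψ ∘ γ = c := funext hγ
  subst hγ'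
  have hγinj : Injective (lift γ) := (lift_comp_inj hψ γ).1 hcinj
  have hγfill : Filled c0 (tup s) (tup γ) := by
    change Filled c0 (tup (ψ ∘ s)) (tup (ψ ∘ γ)) at hcfill
    rw [← tup_map, ← tup_map] at hcfill
    exact (filled_map_iff hψ _ _).1 hcfill
  have hαγ : tup α ≤ tup γ := by
    rw [← tup_map, ← tup_map] at hαc
    exact (Subgroup.map_le_map_iff_of_injective hψ).1 hαc
  have hρ1 : Injective (lift (Fin.append (φ ∘ γ) b)) := by
    refine hst (tup (φ ∘ γ)) ⟨c0, hc0T, ?_⟩ ?_ c0 (φ ∘ γ) ((lift_comp_inj hφ γ).2 hγinj) rfl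
    · rw [← tup_map, ← tup_map]
      exact (filled_map_iff hφ _ _).2 hγfill
    · rw [← tup_map, ← tup_map]
      exact Subgroup.map_mono hαγ
  -- the map between the words
  have hκ : ∀ t, ∃ w, lift γ w = α t := by
    intro t
    have h1 : α t ∈ tup γ := hαγ (Subgroup.subset_closure ⟨t, rfl⟩)
    rw [← range_lift] at h1
    exact h1
  choose κ hκ using hκ
  let K : FreeGroup (Fin (p + q)) →* FreeGroup (Fin (c0 + q)) :=
    lift (Fin.append (fun t => FreeGroup.map (Fin.castAdd q) (κ t))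
      (fun t => of (Fin.natAdd c0 t)))
  have hK : ∀ {G1 : Type} [Group G1] (θ : FreeGroup (Fin m) →* G1) (z : Fin q → G1),
      lift (Fin.append (θ ∘ α) z) = (lift (Fin.append (θ ∘ γ) z)).comp K := by
    intro G1 _ θ z
    ext t
    refine Fin.addCases (fun t => ?_) (fun t => ?_) t
    · have h1 : lift (Fin.append (θ ∘ γ) z) (FreeGroup.map (Fin.castAdd q) (κ t)) =
          θ (lift γ (κ t)) := by
        rw [← MonoidHom.comp_apply, ← MonoidHom.comp_apply]
        congr 1
        ext u
        simp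
      simp [K, h1, hκ]
    · simp [K]
  -- transport
  have hS1 : tup (lift (Fin.append (ψ ∘ α) y) ∘ S) =
      (tup (K ∘ S)).map (lift (Fin.append (ψ ∘ γ) y)) := by
    rw [tup_map, hK ψ y]
    rfl
  have hS2 : tup (lift (Fin.append (φ ∘ α) b) ∘ S) =
      (tup (K ∘ S)).map (lift (Fin.append (φ ∘ γ) b)) := by
    rw [tup_map, hK φ b]
    rfl
  have hAmap : (A.comap (lift (Fin.append (ψ ∘ γ) y))).map (lift (Fin.append (ψ ∘ γ) y)) = A := by
    apply Subgroup.map_comap_eq_self
    rw [range_lift, tup_append]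
    exact hAc
  have hA1 : FilledLe N' (tup (K ∘ S)) (A.comap (lift (Fin.append (ψ ∘ γ) y))) := by
    rw [← filledLe_map_iff hcy, hAmap, ← hS1]
    exact ⟨k, hk, hA⟩
  have hA2 : (A.comap (lift (Fin.append (ψ ∘ γ) y))).map (lift (Fin.append (φ ∘ γ) b)) ≤
      (lift (Fin.append (φ ∘ α) b)).range := by
    refine le_trans ?_ hhull
    rw [hS2]
    exact le_sSup ((filledLe_map_iff hρ1 _ _).2 hA1)
  rw [hK φ b, MonoidHom.range_comp] at hA2
  have hA3 := (Subgroup.map_le_map_iff_of_injective hρ1).1 hA2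
  rw [← hAmap, hK ψ y, MonoidHom.range_comp]
  exact Subgroup.map_mono hA3

end Pool.Agent.Helper32.HL
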